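import Pool.Agent.V7H76.AD.Spec2

/-! FIN2: from the sequence with the density in every scale to `a_n ≤ n (log n)^(1/2+ε)`. -/

set_option autoImplicit false

open Finset Filter Topology

namespace Pool.Agent.V7H81.AD

open Pool.Agent.V7H76.AD

theorem behr (ε : ℝ) (hε : 0 < ε) : ∃ (s : ℕ) (D : Finset ℕ), 2 ≤ s ∧
    (∀ d ∈ D, d < 2 ^ (s - 1)) ∧ ThreeAPFree (D : Set ℕ) ∧
    (2 : ℝ) ^ s ≤ (D.card : ℝ) ^ (1 + ε) ∧ 4 ≤ D.card := by
  have hl2 : 0 < Real.log 2 := Real.log_pos (by norm_num)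
  have hl2' : Real.log 2 ≤ 1 := by
    have := Real.log_two_lt_d9
    linarith
  obtain ⟨Y, hY6, hY2⟩ : ∃ Y : ℝ, 6 ≤ Y ∧ (4 * (1 + ε) + 1) / ε ≤ Y :=
    ⟨max 6 ((4 * (1 + ε) + 1) / ε), le_max_left _ _, le_max_right _ _⟩
  obtain ⟨t, ht⟩ := exists_nat_ge (Y ^ 2 / Real.log 2)
  obtain ⟨x, hxdef⟩ : ∃ x : ℝ, x = t * Real.log 2 := ⟨_, rfl⟩
  have hx : Y ^ 2 ≤ x := by
    rw [hxdef]
    rwa [div_le_iff₀ hl2] at ht
  have hx0 : 0 ≤ x := le_trans (sq_nonneg Y) hx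
  obtain ⟨y, hydef⟩ : ∃ y : ℝ, y = √x := ⟨_, rfl⟩
  have hy : Y ≤ y := by
    rw [hydef]
    exact Real.le_sqrt_of_sq_le hx
  have hyy : y * y = x := by
    rw [hydef]
    exact Real.mul_self_sqrt hx0
  obtain ⟨D, hDs, hDc, hDF⟩ := rothNumberNat_spec (2 ^ t)
  have h2t : (2 : ℝ) ^ t = Real.exp x := by
    rw [hxdef, mul_comm, Real.exp_mul, Real.exp_log (by norm_num), Real.rpow_natCast]
  have hlow : Real.exp (x - 4 * y) ≤ (D.card : ℝ) := by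
    have h1 := Behrend.roth_lower_bound (N := 2 ^ t)
    rw [← hDc] at h1
    push_cast at h1
    rw [h2t, Real.log_exp, ← Real.exp_add, ← hydef] at h1
    have h3 : x + -4 * y = x - 4 * y := by ring
    rwa [h3] at h1
  have hy6 : 6 ≤ y := hY6.trans hy
  have hkey : x + Real.log 2 ≤ (x - 4 * y) * (1 + ε) := by
    have h1 : 4 * (1 + ε) + 1 ≤ y * ε := by
      have h2 : (4 * (1 + ε) + 1) / ε ≤ y := hY2.trans hy
      rwa [div_le_iff₀ hε] at h2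
    have h3 : (4 * (1 + ε) + 1) * y ≤ (y * ε) * y := mul_le_mul_of_nonneg_right h1 (by linarith)
    have h4 : (y * ε) * y = ε * x := by rw [← hyy]; ring
    nlinarith
  refine ⟨t + 1, D, ?_, ?_, hDF, ?_, ?_⟩
  · rcases Nat.eq_zero_or_pos t with h0 | h0
    · rw [h0] at hxdef
      simp at hxdef
      nlinarith
    · omega
  · intro d hd
    have := hDs hd
    rw [mem_range] at this
    simpa using this
  · have h1 : (2 : ℝ) ^ (t + 1) = Real.exp (x + Real.log 2) := by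
      rw [pow_succ, h2t, Real.exp_add, Real.exp_log (by norm_num)]
    rw [h1]
    calc Real.exp (x + Real.log 2) ≤ Real.exp ((x - 4 * y) * (1 + ε)) := Real.exp_le_exp.2 hkey
      _ = (Real.exp (x - 4 * y)) ^ (1 + ε) := Real.exp_mul _ _
      _ ≤ (D.card : ℝ) ^ (1 + ε) :=
        Real.rpow_le_rpow (Real.exp_pos _).le hlow (by linarith)
  · have h1 : (12 : ℝ) ≤ x - 4 * y := by nlinarith
    have h2 : x - 4 * y + 1 ≤ Real.exp (x - 4 * y) := Real.add_one_le_exp _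
    have h3 : (4 : ℝ) ≤ (D.card : ℝ) := by linarith
    exact_mod_cast h3

theorem iscale_mono (s k0 N0 i0 : ℕ) : Monotone (iscale s k0 N0 i0) :=
  monotone_nat_of_le_succ fun k => by
    change iscale s k0 N0 i0 k ≤ iscale s k0 N0 i0 k + _
    exact Nat.le_add_right _ _

theorem iscale_ex (s k0 N0 i0 : ℕ) (hub : ∀ x, ∃ k, x < iscale s k0 N0 i0 k) (x : ℕ)
    (hx : iscale s k0 N0 i0 0 ≤ x) : ∃ k, iscale s k0 N0 i0 k ≤ x ∧ x < iscale s k0 N0 i0 (k + 1) := by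
  classical
  have h1 := Nat.find_spec (hub x)
  have h2 : Nat.find (hub x) ≠ 0 := by
    intro h0
    rw [h0] at h1
    omega
  obtain ⟨k, hk⟩ := Nat.exists_eq_succ_of_ne_zero h2
  refine ⟨k, ?_, ?_⟩
  · have h3 := Nat.find_min (hub x) (m := k) (by omega)
    omega
  · rw [hk] at h1
    exact h1

theorem t_FIN2 : S_REC → S_FIN2 := by
  intro hR ε0 hε0
  obtain ⟨ε, hε, hε1, hεle⟩ : ∃ ε : ℝ, 0 < ε ∧ ε ≤ 1 ∧ ε ≤ ε0 :=
    ⟨min ε0 1, lt_min hε0 one_pos, min_le_right _ _, min_le_left _ _⟩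
  obtain ⟨s, D, hs, hD, hF, hpow, h4⟩ := behr ε hε
  obtain ⟨N0, hN0⟩ : ∃ N0 : ℕ, D.card = N0 := ⟨_, rfl⟩
  rw [hN0] at hpow h4
  have h4' : (4 : ℝ) ≤ (N0 : ℝ) := by exact_mod_cast h4
  have hNpos : (0 : ℝ) < (N0 : ℝ) := by linarith
  have hsq : 2 ^ s ≤ N0 ^ 2 := by
    have h1 : (N0 : ℝ) ^ (1 + ε) ≤ (N0 : ℝ) ^ (2 : ℝ) :=
      Real.rpow_le_rpow_of_exponent_le (by linarith) (by linarith)
    have h2 : (N0 : ℝ) ^ (2 : ℝ) = (N0 : ℝ) ^ 2 := by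
      rw [← Real.rpow_natCast]
      norm_num
    have h3 : (2 : ℝ) ^ s ≤ (N0 : ℝ) ^ 2 := (hpow.trans h1).trans h2.le
    exact_mod_cast h3
  obtain ⟨k0, i0, a, hk0, hmono, ha0, hadm, hden⟩ := hR s N0 D hs hD hF hN0 hsq h4
  refine ⟨a, hmono, ha0, hadm, ?_⟩
  have hl2 : 0 < Real.log 2 := Real.log_pos (by norm_num)
  obtain ⟨C, hC⟩ : ∃ C : ℝ, C = 65536 * 2 ^ s := ⟨_, rfl⟩
  have hCpos : 0 < C := by rw [hC]; positivity
  obtain ⟨c, hc⟩ : ∃ c : ℝ, c = Real.log 2 / (2 * C * (N0 : ℝ) ^ 2) := ⟨_, rfl⟩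
  have hcpos : 0 < c := by rw [hc]; positivity
  have hr1 : (1 : ℝ) < (N0 : ℝ) ^ 2 := by nlinarith
  have hr0 : (0 : ℝ) < (N0 : ℝ) ^ 2 := by positivity
  have E1 : ∀ᶠ K : ℕ in atTop, (7 : ℝ) + s * K ≤ ((N0 : ℝ) ^ 2) ^ K / (2 * C * (N0 : ℝ) ^ 2) := by
    have h1 : Tendsto (fun n : ℕ => (n : ℝ) ^ 1 / ((N0 : ℝ) ^ 2) ^ n) atTop (𝓝 0) :=
      tendsto_pow_const_div_const_pow_of_one_lt 1 hr1
    have h0 : Tendsto (fun n : ℕ => (n : ℝ) ^ 0 / ((N0 : ℝ) ^ 2) ^ n) atTop (𝓝 0) :=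
      tendsto_pow_const_div_const_pow_of_one_lt 0 hr1
    have h2 : Tendsto (fun n : ℕ => (7 : ℝ) * ((n : ℝ) ^ 0 / ((N0 : ℝ) ^ 2) ^ n) +
        (s : ℝ) * ((n : ℝ) ^ 1 / ((N0 : ℝ) ^ 2) ^ n)) atTop (𝓝 (7 * 0 + (s : ℝ) * 0)) :=
      (h0.const_mul 7).add (h1.const_mul (s : ℝ))
    have h3 : ((7 : ℝ) * 0 + (s : ℝ) * 0) < 1 / (2 * C * (N0 : ℝ) ^ 2) := by
      have : 0 < 1 / (2 * C * (N0 : ℝ) ^ 2) := by positivity
      linarith
    filter_upwards [h2.eventually_lt_const h3] with K hK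
    have h5 : 0 < ((N0 : ℝ) ^ 2) ^ K := by positivity
    have h6 := mul_lt_mul_of_pos_right hK h5
    have h7 : (7 * ((K : ℝ) ^ 0 / ((N0 : ℝ) ^ 2) ^ K) + s * ((K : ℝ) ^ 1 / ((N0 : ℝ) ^ 2) ^ K)) *
        ((N0 : ℝ) ^ 2) ^ K = 7 + s * K := by
      field_simp
    rw [h7] at h6
    have h8 : 1 / (2 * C * (N0 : ℝ) ^ 2) * ((N0 : ℝ) ^ 2) ^ K =
        ((N0 : ℝ) ^ 2) ^ K / (2 * C * (N0 : ℝ) ^ 2) := by ring
    rw [h8] at h6
    exact h6.le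
  have E2 : ∀ᶠ K : ℕ in atTop, (256 : ℝ) ≤ c ^ (1 / 2 + ε) * ((N0 : ℝ) ^ ε) ^ K := by
    have h1 : (1 : ℝ) < (N0 : ℝ) ^ ε := Real.one_lt_rpow (by linarith) hε
    have h2 := (tendsto_pow_atTop_atTop_of_one_lt h1).const_mul_atTop
      (Real.rpow_pos_of_pos hcpos (1 / 2 + ε))
    exact h2.eventually_ge_atTop _
  have E3 : ∀ᶠ K : ℕ in atTop, (1 : ℝ) ≤ c * ((N0 : ℝ) ^ 2) ^ K := by
    have h2 := (tendsto_pow_atTop_atTop_of_one_lt hr1).const_mul_atTop hcpos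
    exact h2.eventually_ge_atTop _
  obtain ⟨K1, hK1⟩ := eventually_atTop.1 ((E1.and E2).and (E3.and (eventually_ge_atTop 1)))
  have hK1' : 1 ≤ K1 := (hK1 K1 le_rfl).2.2
  -- the lower bound for the scales
  have hstep : ∀ k, (((N0 : ℝ) ^ 2) ^ (k + 1 + k0)) / (C * (N0 : ℝ) ^ 2) - 1 ≤
      (iscale s k0 N0 i0 (k + 1) : ℝ) := by
    intro k
    have h1 : iscale s k0 N0 i0 (k + 1) =
      iscale s k0 N0 i0 k + N0 ^ (2 * (k + k0)) / (65536 * 2 ^ s) := rfl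
    have h2 := Nat.div_add_mod (N0 ^ (2 * (k + k0))) (65536 * 2 ^ s)
    have h3 := Nat.mod_lt (N0 ^ (2 * (k + k0))) (y := 65536 * 2 ^ s) (by positivity)
    have h5 : N0 ^ (2 * (k + k0)) ≤ (65536 * 2 ^ s) * (iscale s k0 N0 i0 (k + 1) + 1) := by
      rw [h1]
      nlinarith [Nat.zero_le ((65536 * 2 ^ s) * iscale s k0 N0 i0 k)]
    have h6 : ((N0 : ℝ)) ^ (2 * (k + k0)) ≤ C * ((iscale s k0 N0 i0 (k + 1) : ℝ) + 1) := by
      rw [hC]
      exact_mod_cast h5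
    have h7 : (((N0 : ℝ) ^ 2) ^ (k + 1 + k0)) / (C * (N0 : ℝ) ^ 2) =
        (N0 : ℝ) ^ (2 * (k + k0)) / C := by
      have : ((N0 : ℝ) ^ 2) ^ (k + 1 + k0) = (N0 : ℝ) ^ (2 * (k + k0)) * (N0 : ℝ) ^ 2 := by
        rw [← pow_mul, ← pow_add]
        congr 1
        ring
      rw [this]
      field_simp
    rw [h7]
    have h8 : (N0 : ℝ) ^ (2 * (k + k0)) / C ≤ (iscale s k0 N0 i0 (k + 1) : ℝ) + 1 := by
      rw [div_le_iff₀ hCpos]
      linarith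
    linarith
  have hub : ∀ x, ∃ k, x < iscale s k0 N0 i0 k := by
    intro x
    have h1 : Tendsto (fun k : ℕ => ((N0 : ℝ) ^ 2) ^ k) atTop atTop :=
      tendsto_pow_atTop_atTop_of_one_lt hr1
    obtain ⟨k, hk⟩ := (h1.eventually_ge_atTop (((x : ℝ) + 2) * (C * (N0 : ℝ) ^ 2))).exists
    refine ⟨k + 1, ?_⟩
    have h2 := hstep k
    have h3 : ((x : ℝ) + 2) ≤ (((N0 : ℝ) ^ 2) ^ (k + 1 + k0)) / (C * (N0 : ℝ) ^ 2) := by
      rw [le_div_iff₀ (by positivity)]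
      refine hk.trans ?_
      exact pow_le_pow_right₀ hr1.le (by omega)
    have h5 : (x : ℝ) < (iscale s k0 N0 i0 (k + 1) : ℝ) := by linarith
    exact_mod_cast h5
  refine ⟨2 ^ (iscale s k0 N0 i0 K1 + 1), fun n hn => ?_⟩
  have hna : n ≤ a n := hmono.le_apply
  have hnpos : 0 < n := lt_of_lt_of_le (by positivity) hn
  have han : a n ≠ 0 := by omega
  obtain ⟨i, hi⟩ : ∃ i, i = Nat.log 2 (a n) := ⟨_, rfl⟩
  have hi1 : 2 ^ i ≤ a n := by rw [hi]; exact Nat.pow_log_le_self 2 han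
  have hi2 : a n < 2 ^ (i + 1) := by rw [hi]; exact Nat.lt_pow_succ_log_self (by norm_num) _
  have hi3 : iscale s k0 N0 i0 K1 + 1 ≤ i := by
    rw [hi]
    exact Nat.le_log_of_pow_le (by norm_num) (hn.trans hna)
  obtain ⟨i', rfl⟩ : ∃ i', i = i' + 1 := ⟨i - 1, by omega⟩
  have hm0 := iscale_mono s k0 N0 i0 (Nat.zero_le K1)
  obtain ⟨k, hk1, hk2⟩ := iscale_ex s k0 N0 i0 hub i' (by omega)
  have hkK : K1 ≤ k := by
    by_contra hcon
    have := iscale_mono s k0 N0 i0 (show k + 1 ≤ K1 by omega)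
    omega
  obtain ⟨m, m', hmm, -, -, -, h5, h6⟩ := hden k i' hk1 hk2
  have hmn : m' ≤ n := by
    by_contra hcon
    have := h5 n (by omega)
    omega
  obtain ⟨hE, hE3⟩ := hK1 (k + k0) (by omega)
  obtain ⟨hE1, hE2⟩ := hE
  obtain ⟨hE3, -⟩ := hE3
  obtain ⟨K, hK⟩ : ∃ K, K = k + k0 := ⟨_, rfl⟩
  rw [← hK] at hE1 hE2 hE3 h6
  have h7 : 2 ^ i' ≤ 64 * 2 ^ (s * K) * n := by
    refine h6.trans ?_
    apply Nat.mul_le_mul
    · exact Nat.mul_le_mul_left _ (Nat.pow_le_pow_right (by norm_num) (by omega))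
    · omega
  have h8 : a n ≤ 256 * 2 ^ (s * K) * n := by
    have : 2 ^ (i' + 1 + 1) = 4 * 2 ^ i' := by ring
    rw [this] at hi2
    nlinarith
  -- the logarithm of `n`
  have hnR : (0 : ℝ) < (n : ℝ) := by exact_mod_cast hnpos
  have h9 : (i' : ℝ) * Real.log 2 ≤ 6 * Real.log 2 + (s * K) * Real.log 2 + Real.log n := by
    have h10 : (2 : ℝ) ^ i' ≤ 2 ^ 6 * 2 ^ (s * K) * n := by
      have : (2 : ℝ) ^ i' ≤ 64 * 2 ^ (s * K) * n := by exact_mod_cast h7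
      norm_num
      exact this
    have h11 := Real.log_le_log (by positivity) h10
    rw [Real.log_mul (by positivity) hnR.ne', Real.log_mul (by positivity) (by positivity),
      Real.log_pow, Real.log_pow, Real.log_pow] at h11
    push_cast at h11
    exact h11
  obtain ⟨k', rfl⟩ : ∃ k', k = k' + 1 := ⟨k - 1, by omega⟩
  have h12 := hstep k'
  rw [← hK] at h12
  have h13 : (iscale s k0 N0 i0 (k' + 1) : ℝ) ≤ (i' : ℝ) := by exact_mod_cast hk1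
  have h14 : c * ((N0 : ℝ) ^ 2) ^ K ≤ Real.log n := by
    have h15 : ((N0 : ℝ) ^ 2) ^ K / (C * (N0 : ℝ) ^ 2) =
        2 * (((N0 : ℝ) ^ 2) ^ K / (2 * C * (N0 : ℝ) ^ 2)) := by
      field_simp
    rw [h15] at h12
    have h16 : c * ((N0 : ℝ) ^ 2) ^ K =
        (((N0 : ℝ) ^ 2) ^ K / (2 * C * (N0 : ℝ) ^ 2)) * Real.log 2 := by
      rw [hc]
      ring
    rw [h16]
    have h17 : ((N0 : ℝ) ^ 2) ^ K / (2 * C * (N0 : ℝ) ^ 2) ≤ (i' : ℝ) - 6 - s * K := by linarith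
    have h18 := mul_le_mul_of_nonneg_right h17 hl2.le
    linarith
  have hlogn : 1 ≤ Real.log n := hE3.trans h14
  have h19 : (a n : ℝ) ≤ 256 * 2 ^ (s * K) * n := by exact_mod_cast h8
  have h20 : (256 : ℝ) * 2 ^ (s * K) ≤ (Real.log n) ^ (1 / 2 + ε0) := by
    calc (256 : ℝ) * 2 ^ (s * K) ≤ (c ^ (1 / 2 + ε) * ((N0 : ℝ) ^ ε) ^ K) *
          ((N0 : ℝ) ^ (1 + ε)) ^ K := by
          refine mul_le_mul hE2 ?_ (by positivity) (by positivity)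
          rw [pow_mul]
          exact pow_le_pow_left₀ (by positivity) hpow K
      _ = (c * ((N0 : ℝ) ^ 2) ^ K) ^ (1 / 2 + ε) := by
          rw [Real.mul_rpow hcpos.le (by positivity)]
          have h21 : (((N0 : ℝ) ^ 2) ^ K) ^ (1 / 2 + ε) = (N0 : ℝ) ^ ((2 * K : ℝ) * (1 / 2 + ε)) := by
            rw [← pow_mul, Real.rpow_mul hNpos.le]
            congr 1
            rw [← Real.rpow_natCast]
            push_cast
            rfl
          have h22 : ((N0 : ℝ) ^ ε) ^ K = (N0 : ℝ) ^ (ε * K) := by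
            rw [Real.rpow_mul hNpos.le, Real.rpow_natCast]
          have h23 : ((N0 : ℝ) ^ (1 + ε)) ^ K = (N0 : ℝ) ^ ((1 + ε) * K) := by
            rw [Real.rpow_mul hNpos.le, Real.rpow_natCast]
          rw [h21, h22, h23, mul_assoc, ← Real.rpow_add hNpos]
          congr 2
          ring
      _ ≤ (Real.log n) ^ (1 / 2 + ε) :=
          Real.rpow_le_rpow (by positivity) h14 (by positivity)
      _ ≤ (Real.log n) ^ (1 / 2 + ε0) :=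
          Real.rpow_le_rpow_of_exponent_le hlogn (by linarith)
  calc (a n : ℝ) ≤ 256 * 2 ^ (s * K) * n := h19
    _ ≤ (Real.log n) ^ (1 / 2 + ε0) * n := mul_le_mul_of_nonneg_right h20 hnR.le
    _ = n * (Real.log n) ^ (1 / 2 + ε0) := mul_comm _ _

end Pool.Agent.V7H81.AD
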